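import Mathlib

/-!
# MP_828339_co: finite families of graphon sequences do not realise all density domination exponents

For every finite family of graphon sequences there are graphs `G`, `H` with `ρ(G,H)` finite such that no
sequence of the family has `log t(H,W_n) / log t(G,W_n)` converging to `ρ(G,H)`.
-/

set_option autoImplicit false

namespace Pool.Agent.Results.MP_828339_co.NoFiniteFamily

open MeasureTheory unitInterval Filter Topology

/-- A graphon: a symmetric measurable function `[0,1]² → [0,1]`. -/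
structure Graphon where
  /-- the underlying function -/
  toFun : I → I → ℝ
  symm : ∀ x y, toFun x y = toFun y x
  measurable : Measurable (Function.uncurry toFun)
  nonneg : ∀ x y, 0 ≤ toFun x y
  le_one : ∀ x y, toFun x y ≤ 1

/-- The factor `W(x_i, x_j)` of the edge `ij`. -/
def Graphon.edge {V : Type} (W : Graphon) (x : V → I) (e : Sym2 V) : ℝ :=
  Sym2.lift ⟨fun i j => W.toFun (x i) (x j), fun _ _ => W.symm _ _⟩ e

open Classical in
/-- The homomorphism density `t(G,W)`: the integral over `[0,1]^{V(G)}` of the product of `W(x_i,x_j)` over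
the edges `ij` of `G`. -/
noncomputable def t {V : Type} [Fintype V] (G : SimpleGraph V) (W : Graphon) : ℝ :=
  ∫ x : V → I, ∏ e ∈ G.edgeFinset, W.edge x e

/-- The ratio `log t(H,W) / log t(G,W)` as an extended real number, with `log 0 = -∞`. -/
noncomputable def ratio {A B : Type} [Fintype A] [Fintype B] (G : SimpleGraph A) (H : SimpleGraph B)
    (W : Graphon) : EReal :=
  ENNReal.log (ENNReal.ofReal (t H W)) / ENNReal.log (ENNReal.ofReal (t G W))

/-- The density domination exponent `ρ(G,H)`: the supremum of the ratios over the graphons `W` with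
`t(G,W) ≠ 0` and `t(G,W) ≠ 1`. -/
noncomputable def rho {A B : Type} [Fintype A] [Fintype B] (G : SimpleGraph A) (H : SimpleGraph B) : EReal :=
  ⨆ (W : Graphon) (_ : t G W ≠ 0 ∧ t G W ≠ 1), ratio G H W

/-! ### Homomorphism densities of disjoint unions and stars -/

lemma Graphon.edge_mem (W : Graphon) {V : Type} (x : V → I) (e : Sym2 V) :
    0 ≤ W.edge x e ∧ W.edge x e ≤ 1 := by
  induction e with
  | _ i j => exact ⟨W.nonneg _ _, W.le_one _ _⟩

lemma Graphon.measurable_edge (W : Graphon) {V : Type} [Fintype V] (e : Sym2 V) :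
    Measurable (fun x : V → I => W.edge x e) := by
  induction e with
  | _ i j =>
    have h : Measurable (fun x : V → I => (x i, x j)) :=
      (measurable_pi_apply i).prodMk (measurable_pi_apply j)
    exact W.measurable.comp h

open Classical in
lemma t_sum {A B : Type} [Fintype A] [Fintype B] (G : SimpleGraph A) (H : SimpleGraph B) (W : Graphon) :
    t (G ⊕g H) W = t G W * t H W := by
  unfold t
  have h1 : (G ⊕g H).edgeFinset = (G.edgeFinset.image (Sym2.map Sum.inl)) ∪
      (H.edgeFinset.image (Sym2.map Sum.inr)) := by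
    ext e
    induction e with
    | _ a b =>
      simp only [SimpleGraph.mem_edgeFinset, SimpleGraph.mem_edgeSet, Finset.mem_union, Finset.mem_image]
      rcases a with a | a <;> rcases b with b | b
      · constructor
        · intro h
          exact Or.inl ⟨s(a, b), by simpa using h, by simp⟩
        · rintro (⟨e, he, h2⟩ | ⟨e, he, h2⟩)
          · induction e with
            | _ c d => simp at h2 he; rcases h2 with ⟨rfl, rfl⟩ | ⟨rfl, rfl⟩ <;> simp [he, he.symm]
          · induction e with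
            | _ c d => simp at h2
      · constructor
        · intro h; simp at h
        · rintro (⟨e, he, h2⟩ | ⟨e, he, h2⟩)
          · induction e with
            | _ c d => simp at h2
          · induction e with
            | _ c d => simp at h2
      · constructor
        · intro h; simp at h
        · rintro (⟨e, he, h2⟩ | ⟨e, he, h2⟩)
          · induction e with
            | _ c d => simp at h2
          · induction e with
            | _ c d => simp at h2
      · constructor
        · intro h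
          exact Or.inr ⟨s(a, b), by simpa using h, by simp⟩
        · rintro (⟨e, he, h2⟩ | ⟨e, he, h2⟩)
          · induction e with
            | _ c d => simp at h2
          · induction e with
            | _ c d => simp at h2 he; rcases h2 with ⟨rfl, rfl⟩ | ⟨rfl, rfl⟩ <;> simp [he, he.symm]
  have h2 : Disjoint (G.edgeFinset.image (Sym2.map (Sum.inl : A → A ⊕ B)))
      (H.edgeFinset.image (Sym2.map Sum.inr)) := by
    rw [Finset.disjoint_left]
    intro e he he2
    simp only [Finset.mem_image] at he he2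
    obtain ⟨e1, _, rfl⟩ := he
    obtain ⟨e2, _, h3⟩ := he2
    induction e1 with
    | _ a b =>
      induction e2 with
      | _ c d => simp at h3
  have h3 : ∀ x : A ⊕ B → I, ∏ e ∈ (G ⊕g H).edgeFinset, W.edge x e =
      (∏ e ∈ G.edgeFinset, W.edge (fun a => x (Sum.inl a)) e) *
      (∏ e ∈ H.edgeFinset, W.edge (fun b => x (Sum.inr b)) e) := by
    intro x
    rw [h1, Finset.prod_union h2, Finset.prod_image, Finset.prod_image]
    · congr 1
      · refine Finset.prod_congr rfl fun e _ => ?_
        induction e with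
        | _ a b => rfl
      · refine Finset.prod_congr rfl fun e _ => ?_
        induction e with
        | _ a b => rfl
    · intro e _ e' _ h; exact Sym2.map.injective Sum.inr_injective h
    · intro e _ e' _ h; exact Sym2.map.injective Sum.inl_injective h
  simp_rw [h3]
  rw [← integral_prod_mul, ← (volume_measurePreserving_sumPiEquivProdPi_symm (fun _ : A ⊕ B => I)).integral_comp']
  rfl

/-- the star `K_{1,k}` -/
abbrev star (k : ℕ) : SimpleGraph (Unit ⊕ Fin k) := completeBipartiteGraph Unit (Fin k)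

/-- the degree function of a graphon -/
noncomputable def deg (W : Graphon) (x : I) : ℝ := ∫ y, W.toFun x y

open Classical in
lemma t_star (k : ℕ) (W : Graphon) : t (star k) W = ∫ x, deg W x ^ k := by
  unfold t
  have h1 : (star k).edgeFinset = Finset.univ.image (fun i : Fin k => s(Sum.inl (), Sum.inr i)) := by
    ext e
    induction e with
    | _ a b =>
      simp only [SimpleGraph.mem_edgeFinset, SimpleGraph.mem_edgeSet, Finset.mem_image, Finset.mem_univ,
        true_and]
      rcases a with a | a <;> rcases b with b | b <;> simp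
  have h2 : ∀ x : Unit ⊕ Fin k → I, ∏ e ∈ (star k).edgeFinset, W.edge x e =
      ∏ i : Fin k, W.toFun (x (Sum.inl ())) (x (Sum.inr i)) := by
    intro x
    rw [h1, Finset.prod_image]
    · rfl
    · intro i _ j _ h
      simpa using h
  simp_rw [h2]
  have hm : Measurable (fun p : (Unit → I) × (Fin k → I) => ∏ i : Fin k, W.toFun (p.1 ()) (p.2 i)) := by
    refine Finset.measurable_prod _ fun i _ => ?_
    have h : Measurable (fun p : (Unit → I) × (Fin k → I) => (p.1 (), p.2 i)) :=
      ((measurable_pi_apply ()).comp measurable_fst).prodMk ((measurable_pi_apply i).comp measurable_snd)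
    exact W.measurable.comp h
  calc ∫ x : Unit ⊕ Fin k → I, ∏ i : Fin k, W.toFun (x (Sum.inl ())) (x (Sum.inr i))
      = ∫ p : (Unit → I) × (Fin k → I), ∏ i : Fin k, W.toFun (p.1 ()) (p.2 i) := by
        rw [← (volume_measurePreserving_sumPiEquivProdPi_symm (fun _ : Unit ⊕ Fin k => I)).integral_comp']
        rfl
    _ = ∫ u : Unit → I, ∫ v : Fin k → I, ∏ i : Fin k, W.toFun (u ()) (v i) := by
        refine integral_prod _ ?_
        refine Integrable.of_bound hm.aestronglyMeasurable 1 (Filter.Eventually.of_forall fun p => ?_)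
        rw [Real.norm_eq_abs, abs_of_nonneg (Finset.prod_nonneg fun i _ => W.nonneg _ _)]
        exact Finset.prod_le_one (fun i _ => W.nonneg _ _) (fun i _ => W.le_one _ _)
    _ = ∫ u : Unit → I, deg W (u ()) ^ k := by
        refine integral_congr_ae (Filter.Eventually.of_forall fun u => ?_)
        show ∫ v : Fin k → I, ∏ i : Fin k, W.toFun (u ()) (v i) = _
        rw [integral_fintype_prod_volume_eq_pow (fun y => W.toFun (u ()) y)]
        simp [deg]
    _ = ∫ x, deg W x ^ k := by
        have := (volume_preserving_funUnique Unit I).integral_comp'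
          (g := fun x => deg W x ^ k)
        rw [← this]
        rfl

/-! ### The moments of the degree function -/

lemma deg_measurable (W : Graphon) : Measurable (deg W) :=
  (W.measurable.stronglyMeasurable.integral_prod_right).measurable

lemma deg_integrable (W : Graphon) (x : I) : Integrable (fun y => W.toFun x y) := by
  have h : Measurable (fun y => W.toFun x y) := W.measurable.comp measurable_prodMk_left
  refine Integrable.of_bound h.aestronglyMeasurable 1 (Filter.Eventually.of_forall fun y => ?_)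
  rw [Real.norm_eq_abs, abs_of_nonneg (W.nonneg _ _)]
  exact W.le_one _ _

lemma deg_nonneg (W : Graphon) (x : I) : 0 ≤ deg W x := integral_nonneg fun _ => W.nonneg _ _

lemma deg_le_one (W : Graphon) (x : I) : deg W x ≤ 1 := by
  have h := integral_mono (deg_integrable W x) (integrable_const (1 : ℝ)) (fun y => W.le_one x y)
  simpa [deg] using h

/-- the `k`-th moment of the degree function -/
noncomputable def mom (W : Graphon) (k : ℕ) : ℝ := ∫ x, deg W x ^ k

lemma pow_integrable (W : Graphon) (k : ℕ) : Integrable (fun x => deg W x ^ k) := by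
  refine Integrable.of_bound ((deg_measurable W).pow_const k).aestronglyMeasurable 1
    (Filter.Eventually.of_forall fun y => ?_)
  rw [Real.norm_eq_abs, abs_of_nonneg (pow_nonneg (deg_nonneg W y) k)]
  exact pow_le_one₀ (deg_nonneg W y) (deg_le_one W y)

lemma mom_nonneg (W : Graphon) (k : ℕ) : 0 ≤ mom W k :=
  integral_nonneg fun x => pow_nonneg (deg_nonneg W x) k

lemma mom_zero (W : Graphon) : mom W 0 = 1 := by simp [mom]

lemma mom_anti (W : Graphon) (k : ℕ) : mom W (k + 1) ≤ mom W k := by
  refine integral_mono (pow_integrable W _) (pow_integrable W _) fun x => ?_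
  exact pow_le_pow_of_le_one (deg_nonneg W x) (deg_le_one W x) (Nat.le_succ k)

lemma mom_le_one (W : Graphon) (k : ℕ) : mom W k ≤ 1 := by
  induction k with
  | zero => rw [mom_zero]
  | succ k ih => exact (mom_anti W k).trans ih

/-- Cauchy–Schwarz -/
lemma mom_conv (W : Graphon) (k : ℕ) : mom W (k + 1) ^ 2 ≤ mom W k * mom W (k + 2) := by
  have key : ∀ l : ℝ, 0 ≤ mom W (k + 2) - 2 * l * mom W (k + 1) + l ^ 2 * mom W k := by
    intro l
    have h : 0 ≤ ∫ x, (deg W x ^ k * (deg W x - l) ^ 2) :=
      integral_nonneg fun x => mul_nonneg (pow_nonneg (deg_nonneg W x) k) (sq_nonneg _)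
    have h2 : (fun x => deg W x ^ k * (deg W x - l) ^ 2) =
        fun x => (deg W x ^ (k + 2) - (2 * l) * deg W x ^ (k + 1)) + l ^ 2 * deg W x ^ k := by
      funext x; ring
    rw [h2, integral_add, integral_sub, integral_const_mul, integral_const_mul] at h
    · exact h
    · exact pow_integrable W _
    · exact (pow_integrable W _).const_mul _
    · exact (pow_integrable W _).sub ((pow_integrable W _).const_mul _)
    · exact (pow_integrable W _).const_mul _
  rcases (mom_nonneg W k).lt_or_eq with h0 | h0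
  · have h := key (mom W (k + 1) / mom W k)
    have h1 : mom W (k + 2) - 2 * (mom W (k + 1) / mom W k) * mom W (k + 1) +
        (mom W (k + 1) / mom W k) ^ 2 * mom W k =
        (mom W k * mom W (k + 2) - mom W (k + 1) ^ 2) / mom W k := by
      field_simp
      ring
    rw [h1] at h
    have h2 := (div_nonneg_iff.1 h)
    rcases h2 with h2 | h2
    · linarith [h2.1]
    · linarith [h2.2]
  · have h1 : mom W (k + 1) = 0 :=
      le_antisymm ((mom_anti W k).trans h0.symm.le) (mom_nonneg W _)
    rw [h1, ← h0]; simp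

/-! ### Sequences `L` with `L 0 = 0`, nondecreasing and concave -/

/-- nondecreasing concave sequence starting at `0` -/
structure Conc (L : ℕ → ℝ) : Prop where
  zero : L 0 = 0
  mono : ∀ k, L k ≤ L (k + 1)
  conc : ∀ k, L k + L (k + 2) ≤ 2 * L (k + 1)

lemma Conc.monotone {L : ℕ → ℝ} (h : Conc L) : Monotone L := monotone_nat_of_le_succ h.mono

lemma Conc.nonneg {L : ℕ → ℝ} (h : Conc L) (k : ℕ) : 0 ≤ L k := by
  have := h.monotone (Nat.zero_le k); rwa [h.zero] at this

lemma Conc.avg {L : ℕ → ℝ} (h : Conc L) (k : ℕ) : (k : ℝ) * L (k + 1) ≤ ((k : ℝ) + 1) * L k := by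
  induction k with
  | zero => simp [h.zero]
  | succ k ih =>
    have h1 := h.conc k
    have h2 : (0 : ℝ) ≤ (k : ℝ) + 1 := by positivity
    push_cast
    nlinarith [mul_le_mul_of_nonneg_left h1 h2]

lemma Conc.diff {L : ℕ → ℝ} (h : Conc L) {a b : ℕ} (hab : a ≤ b) :
    L (b + 1) - L b ≤ L (a + 1) - L a := by
  induction b, hab using Nat.le_induction with
  | base => exact le_rfl
  | succ b _ ih => linarith [h.conc b]

lemma Conc.pos {L : ℕ → ℝ} (h : Conc L) {k : ℕ} (hk : 0 < L k) : ∀ i, 0 < L (i + 1) := by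
  have h1 : 0 < L 1 := by
    by_contra hh
    have h2 : L 1 ≤ 0 := not_lt.1 hh
    have h3 : ∀ m, L m ≤ 0 := by
      intro m
      induction m with
      | zero => rw [h.zero]
      | succ m ih =>
        have := h.diff (Nat.zero_le m)
        rw [h.zero] at this
        simp only [zero_add] at this
        linarith
    linarith [h3 k]
  intro i
  exact h1.trans_le (h.monotone (by omega))

/-- the reciprocal ratio -/
noncomputable def rec' (L : ℕ → ℝ) (i : ℕ) : ℝ := (L i + L (i + 2)) / L (i + 1)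

lemma Conc.rec_ge {L : ℕ → ℝ} (h : Conc L) (i : ℕ) (hp : 0 < L (i + 1)) :
    2 - 1 / ((i : ℝ) + 1) ≤ rec' L i := by
  unfold rec'
  rw [le_div_iff₀ hp]
  have h1 := h.avg i
  have h2 := h.mono (i + 1)
  have h3 : (0 : ℝ) < (i : ℝ) + 1 := by positivity
  have h4 : (i : ℝ) / ((i : ℝ) + 1) * L (i + 1) ≤ L i := by
    rw [div_mul_eq_mul_div, div_le_iff₀ h3]; linarith
  have h5 : (2 : ℝ) - 1 / ((i : ℝ) + 1) = (i : ℝ) / ((i : ℝ) + 1) + 1 := by field_simp; ring
  rw [h5, add_mul, one_mul]
  have h6 : L (i + 1) ≤ L (i + 2) := h2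
  linarith

lemma Conc.rec_two {L : ℕ → ℝ} (h : Conc L) {i i' : ℕ} (hi : i < i') (hp : 0 < L (i + 1)) :
    4 - 1 / ((i : ℝ) + 1) ≤ rec' L i + rec' L i' := by
  have hp' : 0 < L (i' + 1) := hp.trans_le (h.monotone (by omega))
  have hD : L (i' + 1) - L i' ≤ L (i + 2) - L (i + 1) := h.diff (a := i + 1) (b := i') hi
  have hD0 : 0 ≤ L (i + 2) - L (i + 1) := by linarith [h.mono (i + 1)]
  have hle : L (i + 1) ≤ L (i' + 1) := h.monotone (by omega)
  have h3 : (0 : ℝ) < (i : ℝ) + 1 := by positivity
  have e1 : (2 - 1 / ((i : ℝ) + 1)) + (L (i + 2) - L (i + 1)) / L (i + 1) ≤ rec' L i := by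
    unfold rec'
    rw [le_div_iff₀ hp, add_mul, div_mul_cancel₀ _ hp.ne']
    have h1 := h.avg i
    have h4 : (i : ℝ) / ((i : ℝ) + 1) * L (i + 1) ≤ L i := by
      rw [div_mul_eq_mul_div, div_le_iff₀ h3]; linarith
    have h5 : (2 : ℝ) - 1 / ((i : ℝ) + 1) = (i : ℝ) / ((i : ℝ) + 1) + 1 := by field_simp; ring
    rw [h5, add_mul, one_mul]
    linarith
  have e2 : 2 - (L (i + 2) - L (i + 1)) / L (i + 1) ≤ rec' L i' := by
    unfold rec'
    rw [le_div_iff₀ hp', sub_mul]
    have h6 : L (i' + 1) ≤ L (i' + 2) := h.mono (i' + 1)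
    have h7 : (L (i + 2) - L (i + 1)) ≤ (L (i + 2) - L (i + 1)) / L (i + 1) * L (i' + 1) := by
      rw [div_mul_eq_mul_div, le_div_iff₀ hp]
      exact mul_le_mul_of_nonneg_left hle hD0
    linarith
  linarith

/-- minus the logarithm of the `k`-th moment -/
noncomputable def L (W : Graphon) (k : ℕ) : ℝ := -Real.log (mom W k)

lemma mom_pos {W : Graphon} {j : ℕ} (h : 0 < mom W (j + 1)) : ∀ k, 0 < mom W k := by
  have h1 : 0 < mom W 1 := h.trans_le (antitone_nat_of_succ_le (mom_anti W) (by omega))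
  intro k
  induction k using Nat.strong_induction_on with
  | _ k ih =>
    rcases k with _ | _ | k
    · rw [mom_zero]; exact one_pos
    · exact h1
    · have h2 := ih (k + 1) (by omega)
      have h3 := ih k (by omega)
      have h4 := mom_conv W k
      have h5 : 0 < mom W k * mom W (k + 2) := (pow_pos h2 2).trans_le h4
      exact (pos_iff_pos_of_mul_pos h5).1 h3

lemma conc_L {W : Graphon} (h : ∀ k, 0 < mom W k) : Conc (L W) := by
  refine ⟨by simp [L, mom_zero], ?_, ?_⟩
  · intro k
    unfold L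
    have := Real.log_le_log (h (k + 1)) (mom_anti W k)
    linarith
  · intro k
    unfold L
    have h1 := Real.log_le_log (pow_pos (h (k + 1)) 2) (mom_conv W k)
    rw [Real.log_mul (h k).ne' (h (k + 2)).ne', Real.log_pow] at h1
    push_cast at h1
    linarith

/-- the pair of graphs `K_{1,j-1} ∪ K_{1,j+1}` and `K_{1,j}`, `j = i + 1` -/
abbrev GG (i : ℕ) : SimpleGraph ((Unit ⊕ Fin i) ⊕ (Unit ⊕ Fin (i + 2))) := star i ⊕g star (i + 2)

lemma t_GG (i : ℕ) (W : Graphon) : t (GG i) W = mom W i * mom W (i + 2) := by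
  rw [t_sum, t_star, t_star]; rfl

lemma t_HH (i : ℕ) (W : Graphon) : t (star (i + 1)) W = mom W (i + 1) := t_star _ _

/-- the ratio in terms of `L` -/
lemma ratio_eq {W : Graphon} {i : ℕ} (h : ∀ k, 0 < mom W k) :
    ratio (GG i) (star (i + 1)) W = ((L W (i + 1) / (L W i + L W (i + 2)) : ℝ) : EReal) := by
  unfold ratio
  rw [t_GG, t_HH, ENNReal.log_ofReal_of_pos (h _), ENNReal.log_ofReal_of_pos (mul_pos (h _) (h _)),
    ← EReal.coe_div, Real.log_mul (h _).ne' (h _).ne']
  congr 1
  unfold L
  rw [← neg_add, neg_div_neg_eq]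

lemma ratio_zero {W : Graphon} {i : ℕ} (h : t (GG i) W = 0 ∨ t (GG i) W = 1) :
    ratio (GG i) (star (i + 1)) W = 0 := by
  unfold ratio
  rcases h with h | h
  · rw [h]; simp
  · rw [h]; simp

/-- nondegenerate graphons -/
lemma nondeg {W : Graphon} {i : ℕ} (h0 : t (GG i) W ≠ 0) (h1 : t (GG i) W ≠ 1) :
    (∀ k, 0 < mom W k) ∧ ∀ k, 0 < L W (k + 1) := by
  rw [t_GG] at h0 h1
  have h2 : 0 < mom W (i + 2) := (mom_nonneg W _).lt_of_ne (fun h => h0 (by rw [← h, mul_zero]))
  have hp := mom_pos (j := i + 1) h2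
  refine ⟨hp, ?_⟩
  have hc := conc_L hp
  apply hc.pos (k := i + 2)
  rcases (hc.nonneg (i + 2)).lt_or_eq with h3 | h3
  · exact h3
  · exfalso
    apply h1
    have h4 : L W i = 0 := le_antisymm (by rw [h3]; exact hc.monotone (by omega)) (hc.nonneg i)
    have e1 : mom W i = 1 := by
      unfold L at h4
      have := Real.exp_log (hp i)
      rw [← this]
      have h5 : Real.log (mom W i) = 0 := by linarith
      rw [h5, Real.exp_zero]
    have e2 : mom W (i + 2) = 1 := by
      unfold L at h3
      have := Real.exp_log (hp (i + 2))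
      rw [← this]
      have h5 : Real.log (mom W (i + 2)) = 0 := by linarith
      rw [h5, Real.exp_zero]
    rw [e1, e2, mul_one]

/-- the value of the exponent -/
noncomputable def val (i : ℕ) : ℝ := 1 / (2 - 1 / ((i : ℝ) + 1))

lemma two_sub_pos (i : ℕ) : 0 < 2 - 1 / ((i : ℝ) + 1) := by
  have h3 : (0 : ℝ) < (i : ℝ) + 1 := by positivity
  have : 1 / ((i : ℝ) + 1) ≤ 1 := by
    rw [div_le_one h3]; have : (0 : ℝ) ≤ i := Nat.cast_nonneg i; linarith
  linarith

lemma rho_le (i : ℕ) : rho (GG i) (star (i + 1)) ≤ (val i : EReal) := by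
  unfold rho
  refine iSup₂_le fun W hW => ?_
  obtain ⟨hp, hL⟩ := nondeg hW.1 hW.2
  rw [ratio_eq hp, EReal.coe_le_coe_iff]
  have hc := conc_L hp
  have h1 := hc.rec_ge i (hL i)
  unfold rec' at h1
  unfold val
  have h2 : L W (i + 1) / (L W i + L W (i + 2)) = 1 / ((L W i + L W (i + 2)) / L W (i + 1)) := by
    rw [one_div_div]
  rw [h2]
  exact one_div_le_one_div_of_le (two_sub_pos i) h1

/-! ### The extremal graphons -/

/-- The graphon with value `1` when one of the coordinates is `< ε` and value `δ` otherwise. -/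
noncomputable def ext (ε δ : ℝ) (h0 : 0 ≤ δ) (h1 : δ ≤ 1) : Graphon where
  toFun x y := if (x : ℝ) < ε ∨ (y : ℝ) < ε then 1 else δ
  symm x y := by simp only [or_comm]
  measurable := by
    have h : MeasurableSet {p : I × I | (p.1 : ℝ) < ε ∨ (p.2 : ℝ) < ε} := by
      apply MeasurableSet.union
      · exact measurableSet_lt (measurable_subtype_coe.comp measurable_fst) measurable_const
      · exact measurableSet_lt (measurable_subtype_coe.comp measurable_snd) measurable_const
    exact Measurable.ite h measurable_const measurable_const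
  nonneg x y := by split_ifs <;> [exact zero_le_one; exact h0]
  le_one x y := by split_ifs <;> [exact le_rfl; exact h1]

/-- the indicator function of `x < ε` -/
noncomputable def ind (ε : ℝ) (x : I) : ℝ := if (x : ℝ) < ε then 1 else 0

lemma ind_integral {ε : ℝ} (h0 : 0 ≤ ε) (h1 : ε ≤ 1) : ∫ x, ind ε x = ε := by
  have h : ind ε = Set.indicator (Set.Iio (⟨ε, h0, h1⟩ : I)) (fun _ => (1 : ℝ)) := by
    funext x
    unfold ind Set.indicator
    simp only [Set.mem_Iio]
    rfl
  rw [h, integral_indicator measurableSet_Iio, setIntegral_const, Measure.real, unitInterval.volume_Iio]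
  simp [h0]

lemma ind_integrable (ε : ℝ) : Integrable (ind ε) := by
  have h : Measurable (ind ε) :=
    Measurable.ite (measurableSet_lt measurable_subtype_coe measurable_const) measurable_const measurable_const
  refine Integrable.of_bound h.aestronglyMeasurable 1 (Filter.Eventually.of_forall fun y => ?_)
  unfold ind
  split_ifs <;> simp

lemma deg_ext_lt {ε δ : ℝ} (h0 : 0 ≤ δ) (h1 : δ ≤ 1) {x : I} (hx : (x : ℝ) < ε) :
    deg (ext ε δ h0 h1) x = 1 := by
  simp [deg, ext, hx]

lemma deg_ext_ge {ε δ : ℝ} (h0 : 0 ≤ δ) (h1 : δ ≤ 1) (x : I) : δ ≤ deg (ext ε δ h0 h1) x := by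
  have h := integral_mono (integrable_const δ) (deg_integrable (ext ε δ h0 h1) x) (fun y => by
    show δ ≤ if (x : ℝ) < ε ∨ (y : ℝ) < ε then 1 else δ
    split_ifs <;> [exact h1; exact le_rfl])
  simpa [deg] using h

lemma deg_ext_le {ε δ : ℝ} (h0 : 0 ≤ δ) (h1 : δ ≤ 1) (e0 : 0 ≤ ε) (e1 : ε ≤ 1) {x : I}
    (hx : ¬ (x : ℝ) < ε) : deg (ext ε δ h0 h1) x ≤ ε + δ := by
  have h := integral_mono (deg_integrable (ext ε δ h0 h1) x) ((ind_integrable ε).add (integrable_const δ))
    (fun y => by
      show (if (x : ℝ) < ε ∨ (y : ℝ) < ε then 1 else δ) ≤ ind ε y + δ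
      unfold ind
      by_cases hy : (y : ℝ) < ε
      · simp [hy, h0]
      · simp [hy, hx])
  have h2 : ∫ y, (ind ε + (fun _ => δ : I → ℝ)) y = ε + δ := by
    simp only [Pi.add_apply]
    rw [integral_add (ind_integrable ε) (integrable_const δ), ind_integral e0 e1]
    simp
  rw [h2] at h
  exact h

lemma mom_ext_ge {ε δ : ℝ} (h0 : 0 ≤ δ) (h1 : δ ≤ 1) (k : ℕ) : δ ^ k ≤ mom (ext ε δ h0 h1) k := by
  have h := integral_mono (integrable_const (δ ^ k)) (pow_integrable (ext ε δ h0 h1) k)
    (fun x => pow_le_pow_left₀ h0 (deg_ext_ge h0 h1 x) k)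
  simpa [mom] using h

lemma mom_ext_ge' {ε δ : ℝ} (h0 : 0 ≤ δ) (h1 : δ ≤ 1) (e0 : 0 ≤ ε) (e1 : ε ≤ 1) (k : ℕ) :
    ε ≤ mom (ext ε δ h0 h1) k := by
  have h := integral_mono (ind_integrable ε) (pow_integrable (ext ε δ h0 h1) k)
    (fun x => by
      show ind ε x ≤ deg (ext ε δ h0 h1) x ^ k
      unfold ind
      split_ifs with hx
      · rw [deg_ext_lt h0 h1 hx]; simp
      · exact pow_nonneg (deg_nonneg _ _) _)
  rw [ind_integral e0 e1] at h
  exact h

lemma mom_ext_le {ε δ : ℝ} (h0 : 0 ≤ δ) (h1 : δ ≤ 1) (e0 : 0 ≤ ε) (e1 : ε ≤ 1) (k : ℕ) :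
    mom (ext ε δ h0 h1) k ≤ ε + (ε + δ) ^ k := by
  have h := integral_mono (pow_integrable (ext ε δ h0 h1) k)
    ((ind_integrable ε).add (integrable_const ((ε + δ) ^ k)))
    (fun x => by
      show deg (ext ε δ h0 h1) x ^ k ≤ ind ε x + (ε + δ) ^ k
      unfold ind
      split_ifs with hx
      · rw [deg_ext_lt h0 h1 hx]
        have : 0 ≤ (ε + δ) ^ k := by positivity
        simpa using this
      · rw [zero_add]
        exact pow_le_pow_left₀ (deg_nonneg _ _) (deg_ext_le h0 h1 e0 e1 hx) k)
  have h2 : ∫ y, (ind ε + (fun _ => (ε + δ) ^ k : I → ℝ)) y = ε + (ε + δ) ^ k := by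
    simp only [Pi.add_apply]
    rw [integral_add (ind_integrable ε) (integrable_const _), ind_integral e0 e1]
    simp
  rw [h2] at h
  exact h

/-- a good graphon for the parameter `s > 0` -/
lemma ext_ratio (i : ℕ) {s : ℝ} (hs : 0 < s) (hs2 : Real.log (1 + 2 ^ (i + 1)) < ((i : ℝ) + 1) * s) :
    (((((i : ℝ) + 1) * s - Real.log (1 + 2 ^ (i + 1))) / ((2 * (i : ℝ) + 1) * s) : ℝ) : EReal) ≤
      rho (GG i) (star (i + 1)) := by
  set δ := Real.exp (-s) with hδ
  have d0 : 0 < δ := Real.exp_pos _
  have d1 : δ ≤ 1 := Real.exp_le_one_iff.2 (by linarith)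
  set ε := δ ^ (i + 1) with hε
  have e0 : 0 < ε := pow_pos d0 _
  have e1 : ε ≤ 1 := pow_le_one₀ d0.le d1
  have ed : ε ≤ δ := by
    rw [hε, pow_succ]
    calc δ ^ i * δ ≤ 1 * δ := mul_le_mul_of_nonneg_right (pow_le_one₀ d0.le d1) d0.le
      _ = δ := one_mul _
  set W := ext ε δ d0.le d1 with hW
  have m1 : δ ^ i ≤ mom W i := mom_ext_ge d0.le d1 i
  have m2 : ε ≤ mom W (i + 2) := mom_ext_ge' d0.le d1 e0.le e1 (i + 2)
  have m3 : mom W (i + 1) ≤ (1 + 2 ^ (i + 1)) * δ ^ (i + 1) := by
    calc mom W (i + 1) ≤ ε + (ε + δ) ^ (i + 1) := mom_ext_le d0.le d1 e0.le e1 (i + 1)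
      _ ≤ δ ^ (i + 1) + (2 * δ) ^ (i + 1) := by
          have : (ε + δ) ^ (i + 1) ≤ (2 * δ) ^ (i + 1) := pow_le_pow_left₀ (by positivity) (by linarith) _
          linarith
      _ = (1 + 2 ^ (i + 1)) * δ ^ (i + 1) := by rw [mul_pow]; ring
  have hp : ∀ k, 0 < mom W k := mom_pos (j := i + 1) (e0.trans_le m2)
  have hlog : Real.log δ = -s := Real.log_exp _
  have l1 : L W i ≤ i * s := by
    unfold L
    have := Real.log_le_log (pow_pos d0 i) m1
    rw [Real.log_pow, hlog] at this
    linarith
  have l2 : L W (i + 2) ≤ ((i : ℝ) + 1) * s := by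
    unfold L
    have := Real.log_le_log e0 m2
    rw [hε, Real.log_pow, hlog] at this
    push_cast at this
    linarith
  have l3 : ((i : ℝ) + 1) * s - Real.log (1 + 2 ^ (i + 1)) ≤ L W (i + 1) := by
    unfold L
    have := Real.log_le_log (hp (i + 1)) m3
    rw [Real.log_mul (by positivity) (by positivity), Real.log_pow, hlog] at this
    push_cast at this
    linarith
  have hc := conc_L hp
  have l4 : 0 < L W (i + 1) := lt_of_lt_of_le (by linarith) l3
  have l5 : 0 < L W i + L W (i + 2) := by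
    have h1 := hc.nonneg i
    have h2 : L W (i + 1) ≤ L W (i + 2) := hc.mono (i + 1)
    linarith
  have hG : t (GG i) W ≠ 0 ∧ t (GG i) W ≠ 1 := by
    rw [t_GG]
    refine ⟨(mul_pos (hp _) (hp _)).ne', fun h => ?_⟩
    have h2 : Real.log (mom W i * mom W (i + 2)) = 0 := by rw [h, Real.log_one]
    rw [Real.log_mul (hp _).ne' (hp _).ne'] at h2
    unfold L at l5
    linarith
  have key : (((((i : ℝ) + 1) * s - Real.log (1 + 2 ^ (i + 1))) / ((2 * (i : ℝ) + 1) * s) : ℝ) : EReal) ≤
      ratio (GG i) (star (i + 1)) W := by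
    rw [ratio_eq hp, EReal.coe_le_coe_iff]
    apply div_le_div₀ l4.le l3 l5
    linarith
  refine key.trans ?_
  unfold rho
  exact le_iSup₂ (f := fun (W : Graphon) (_ : t (GG i) W ≠ 0 ∧ t (GG i) W ≠ 1) =>
    ratio (GG i) (star (i + 1)) W) W hG

lemma rho_eq (i : ℕ) : rho (GG i) (star (i + 1)) = (val i : EReal) := by
  refine le_antisymm (rho_le i) ?_
  set C := Real.log (1 + 2 ^ (i + 1)) with hC
  have h3 : (0 : ℝ) < (i : ℝ) + 1 := by positivity
  have h4 : (0 : ℝ) < 2 * (i : ℝ) + 1 := by positivity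
  have lim : Tendsto (fun n : ℕ => ((i : ℝ) + 1) / (2 * (i : ℝ) + 1) -
      C / (2 * (i : ℝ) + 1) * ((1 : ℝ) / ((n : ℝ) + 1))) atTop (𝓝 (val i)) := by
    have h5 : val i = ((i : ℝ) + 1) / (2 * (i : ℝ) + 1) - C / (2 * (i : ℝ) + 1) * 0 := by
      unfold val
      have h6 : (2 : ℝ) - 1 / ((i : ℝ) + 1) = (2 * (i : ℝ) + 1) / ((i : ℝ) + 1) := by field_simp; ring
      rw [h6, one_div_div, mul_zero, sub_zero]
    rw [h5]
    exact tendsto_const_nhds.sub (tendsto_const_nhds.mul tendsto_one_div_add_atTop_nhds_zero_nat)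
  have lim' := EReal.tendsto_coe.2 lim
  refine le_of_tendsto lim' ?_
  obtain ⟨N, hN⟩ := exists_nat_gt C
  filter_upwards [eventually_ge_atTop N] with n hn
  have hn' : (N : ℝ) ≤ n := by exact_mod_cast hn
  have hs : (0 : ℝ) < (n : ℝ) + 1 := by positivity
  have hs2 : C < ((i : ℝ) + 1) * ((n : ℝ) + 1) := by
    have h7 : (0 : ℝ) ≤ (i : ℝ) := Nat.cast_nonneg i
    nlinarith [mul_nonneg h7 hs.le]
  have h := ext_ratio i hs hs2
  refine le_trans (le_of_eq ?_) h
  congr 1
  rw [← hC]
  field_simp

/-! ### The theorem -/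

lemma val_pos (i : ℕ) : 0 < val i := one_div_pos.2 (two_sub_pos i)

lemma ev_nondeg {W : ℕ → Graphon} {i : ℕ}
    (h : Tendsto (fun n => ratio (GG i) (star (i + 1)) (W n)) atTop (𝓝 (rho (GG i) (star (i + 1))))) :
    ∀ᶠ n in atTop, (∀ k, 0 < mom (W n) k) ∧ ∀ k, 0 < L (W n) (k + 1) := by
  rw [rho_eq] at h
  have h1 : ∀ᶠ n in atTop, (0 : EReal) < ratio (GG i) (star (i + 1)) (W n) :=
    h.eventually_const_lt (by exact_mod_cast val_pos i)
  filter_upwards [h1] with n hn
  apply nondeg (i := i)
  · intro h2; rw [ratio_zero (Or.inl h2)] at hn; exact lt_irrefl _ hn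
  · intro h2; rw [ratio_zero (Or.inr h2)] at hn; exact lt_irrefl _ hn

lemma lim_rec {W : ℕ → Graphon} {i : ℕ}
    (h : Tendsto (fun n => ratio (GG i) (star (i + 1)) (W n)) atTop (𝓝 (rho (GG i) (star (i + 1))))) :
    Tendsto (fun n => rec' (L (W n)) i) atTop (𝓝 (2 - 1 / ((i : ℝ) + 1))) := by
  have h0 := ev_nondeg h
  rw [rho_eq] at h
  have h1 : Tendsto (fun n => ((L (W n) (i + 1) / (L (W n) i + L (W n) (i + 2)) : ℝ) : EReal)) atTop
      (𝓝 (val i : EReal)) := by
    refine h.congr' ?_
    filter_upwards [h0] with n hn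
    exact ratio_eq hn.1
  have h2 := EReal.tendsto_coe.1 h1
  have h3 := h2.inv₀ (val_pos i).ne'
  have h4 : (val i)⁻¹ = 2 - 1 / ((i : ℝ) + 1) := by unfold val; rw [one_div, inv_inv]
  rw [h4] at h3
  refine h3.congr fun n => ?_
  rw [inv_div]; rfl

lemma unique {W : ℕ → Graphon} {i i' : ℕ} (hi : i < i')
    (h : Tendsto (fun n => ratio (GG i) (star (i + 1)) (W n)) atTop (𝓝 (rho (GG i) (star (i + 1)))))
    (h' : Tendsto (fun n => ratio (GG i') (star (i' + 1)) (W n)) atTop (𝓝 (rho (GG i') (star (i' + 1))))) :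
    False := by
  have h1 := (lim_rec h).add (lim_rec h')
  have h2 : 4 - 1 / ((i : ℝ) + 1) ≤ (2 - 1 / ((i : ℝ) + 1)) + (2 - 1 / ((i' : ℝ) + 1)) := by
    refine ge_of_tendsto h1 ?_
    filter_upwards [ev_nondeg h] with n hn
    exact (conc_L hn.1).rec_two hi (hn.2 i)
  have h3 : (0 : ℝ) < 1 / ((i' : ℝ) + 1) := by positivity
  linarith

/-- For every finite family `F` of graphon sequences there are graphs `G`, `H` with `ρ(G,H)` a (finite) real
number such that for no sequence `W` of `F` the ratio `log t(H,W_n) / log t(G,W_n)` converges to `ρ(G,H)`. -/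
theorem result (F : Set (ℕ → Graphon)) (hF : F.Finite) :
    ∃ (A B : Type) (_ : Fintype A) (_ : Fintype B) (G : SimpleGraph A) (H : SimpleGraph B),
      (∃ r : ℝ, rho G H = (r : EReal)) ∧
      ∀ W ∈ F, ¬ Tendsto (fun n => ratio G H (W n)) atTop (𝓝 (rho G H)) := by
  by_contra hcon
  push Not at hcon
  have h : ∀ i : ℕ, ∃ W ∈ F, Tendsto (fun n => ratio (GG i) (star (i + 1)) (W n)) atTop
      (𝓝 (rho (GG i) (star (i + 1)))) :=
    fun i => hcon _ _ inferInstance inferInstance (GG i) (star (i + 1)) ⟨val i, rho_eq i⟩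
  choose W hW hT using h
  have : Finite F := hF
  obtain ⟨i, i', hne, heq⟩ := Finite.exists_ne_map_eq_of_infinite (fun i : ℕ => (⟨W i, hW i⟩ : F))
  have heq' : W i = W i' := congrArg Subtype.val heq
  rcases lt_or_gt_of_ne hne with hlt | hlt
  · exact unique hlt (hT i) (heq' ▸ hT i')
  · exact unique hlt (hT i') (heq' ▸ hT i)

end Pool.Agent.Results.MP_828339_co.NoFiniteFamily
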